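import Pool.Agent.helper237_G5.pp56.Void
import Pool.Agent.Y316.PC.Mix

/-!
# MP_f368f5_pr: existence of the Poisson process on `ℝ^d`

The points of the unit cells are drawn independently: a Poisson number of uniform points in every
cell. The points are then enumerated by the natural numbers.
-/

set_option autoImplicit false

namespace Pool.Agent.helper237_G5.pp56

open MeasureTheory ProbabilityTheory Set Filter Topology
open scoped ENNReal NNReal
open Pool.Agent.helper237_G5.pp712
open Pool.Agent.Y316.PC (mixd num psi step measurable_num measurable_step mixd_char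
  lintegral_id_poisson integrable_cexp norm_cexp_mul_I)

/-! ### Enumeration -/

section enumeration

/-- The `i`-th element of a random set of natural numbers is measurable. -/
lemma measurable_nth {Ω : Type} [MeasurableSpace Ω] (S : Ω → ℕ → Prop)
    (hS : ∀ n, MeasurableSet {ω | S ω n}) (i : ℕ) : Measurable (fun ω => Nat.nth (S ω) i) := by
  classical
  have hcount : ∀ n, Measurable (fun ω => Nat.count (S ω) n) := by
    intro n
    induction n with
    | zero => simp only [Nat.count_zero]; exact measurable_const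
    | succ n ih =>
      simp only [Nat.count_succ]
      exact ih.add (Measurable.ite (hS n) measurable_const measurable_const)
  have hpos : ∀ n, n ≠ 0 → (fun ω => Nat.nth (S ω) i) ⁻¹' {n} =
      {ω | S ω n} ∩ (fun ω => Nat.count (S ω) n) ⁻¹' {i} := by
    intro n hn
    ext ω
    simp only [mem_preimage, mem_singleton_iff, mem_inter_iff, mem_ofPred_eq]
    constructor
    · intro h
      have h0 : Nat.nth (S ω) i ≠ 0 := by rw [h]; exact hn
      have h1 := Nat.nth_mem_of_ne_zero h0
      have h2 := Nat.count_nth (p := S ω) (n := i) (Nat.lt_card_toFinset_of_nth_ne_zero h0)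
      rw [h] at h1 h2
      exact ⟨h1, h2⟩
    · rintro ⟨h1, h2⟩
      rw [← h2]
      exact Nat.nth_count h1
  have hposm : ∀ n, n ≠ 0 → MeasurableSet ((fun ω => Nat.nth (S ω) i) ⁻¹' {n}) := by
    intro n hn
    rw [hpos n hn]
    exact (hS n).inter (hcount n (measurableSet_singleton i))
  refine measurable_to_countable' fun n => ?_
  by_cases hn : n = 0
  · subst hn
    have h1 : (fun ω => Nat.nth (S ω) i) ⁻¹' {0} =
        (⋃ n : {n : ℕ // n ≠ 0}, (fun ω => Nat.nth (S ω) i) ⁻¹' {n.1})ᶜ := by
      ext ω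
      simp only [mem_preimage, mem_singleton_iff, mem_compl_iff, mem_iUnion, not_exists]
      constructor
      · intro h n hn
        exact n.2 (hn.symm.trans h)
      · intro h
        by_contra h2
        exact h ⟨_, h2⟩ rfl
    rw [h1]
    exact (MeasurableSet.iUnion fun (n : {n : ℕ // n ≠ 0}) => hposm n.1 n.2).compl
  · exact hposm n hn

variable {M : Type}

/-- The slot `n` (block and position) is in use. -/
def used (ω : ℕ → ℕ × (ℕ → M)) (n : ℕ) : Prop :=
  (Nat.unpair n).2 < (ω (Nat.unpair n).1).1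

/-- The point in the slot `n`. -/
def slot (ω : ℕ → ℕ × (ℕ → M)) (n : ℕ) : M := (ω (Nat.unpair n).1).2 (Nat.unpair n).2

/-- The `i`-th point. -/
noncomputable def enm (i : ℕ) (ω : ℕ → ℕ × (ℕ → M)) : M := slot ω (Nat.nth (used ω) i)

/-- The total number of points in `A`. -/
noncomputable def tot (A : Set M) (ω : ℕ → ℕ × (ℕ → M)) : ℝ≥0∞ :=
  ∑' k, (num (ω k) A : ℝ≥0∞)

lemma sum_enm {ω : ℕ → ℕ × (ℕ → M)} (hω : {n | used ω n}.Infinite) (A : Set M) :
    ∑' i, A.indicator (fun _ => (1 : ℝ≥0∞)) (enm i ω) = tot A ω := by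
  classical
  set f : ℕ → ℝ≥0∞ := fun n => if used ω n then A.indicator (fun _ => (1 : ℝ≥0∞)) (slot ω n)
    else 0 with hf
  have hr : Set.range (Nat.nth (used ω)) = {n | used ω n} := Nat.range_nth_of_infinite hω
  have h1 : ∀ i, A.indicator (fun _ => (1 : ℝ≥0∞)) (enm i ω) = f (Nat.nth (used ω) i) := by
    intro i
    have h2 : used ω (Nat.nth (used ω) i) := Nat.nth_mem_of_infinite hω i
    simp only [hf, if_pos h2]
    rfl
  simp_rw [h1]
  rw [(Nat.nth_injective hω).tsum_eq (f := f)]
  · rw [← Nat.pairEquiv.tsum_eq f, ENNReal.tsum_prod']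
    unfold tot
    refine tsum_congr fun k => ?_
    rw [tsum_eq_sum (s := Finset.range (ω k).1)]
    · unfold num
      push_cast
      refine Finset.sum_congr rfl fun l hl => ?_
      have h3 : used ω (Nat.pair k l) := by
        unfold used
        rw [Nat.unpair_pair]
        exact Finset.mem_range.mp hl
      have h4 : slot ω (Nat.pair k l) = (ω k).2 l := by
        unfold slot
        rw [Nat.unpair_pair]
      change f (Nat.pair k l) = _
      simp only [hf, if_pos h3, h4]
      by_cases h5 : (ω k).2 l ∈ A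
      · rw [indicator_of_mem h5, indicator_of_mem h5]
        simp
      · rw [indicator_of_notMem h5, indicator_of_notMem h5]
        simp
    · intro l hl
      change f (Nat.pair k l) = _
      have h3 : ¬ used ω (Nat.pair k l) := by
        unfold used
        rw [Nat.unpair_pair]
        exact fun h => hl (Finset.mem_range.mpr h)
      simp only [hf, if_neg h3]
  · intro n hn
    rw [hr]
    by_contra h2
    exact hn (if_neg h2)

variable [MeasurableSpace M]

lemma measurableSet_used (n : ℕ) : MeasurableSet {ω : ℕ → ℕ × (ℕ → M) | used ω n} := by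
  have h1 : Measurable (fun ω : ℕ → ℕ × (ℕ → M) => (ω (Nat.unpair n).1).1) :=
    measurable_fst.comp (measurable_pi_apply _)
  exact measurableSet_lt measurable_const h1

lemma measurable_slot (n : ℕ) : Measurable (fun ω : ℕ → ℕ × (ℕ → M) => slot ω n) :=
  (measurable_pi_apply _).comp (measurable_snd.comp (measurable_pi_apply _))

lemma measurable_enm (i : ℕ) : Measurable (enm (M := M) i) := by
  have h1 : Measurable (fun q : (ℕ → ℕ × (ℕ → M)) × ℕ => slot q.1 q.2) :=
    measurable_from_prod_countable_left fun n => measurable_slot n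
  have h2 : Measurable (fun ω : ℕ → ℕ × (ℕ → M) => Nat.nth (used ω) i) :=
    measurable_nth used measurableSet_used i
  exact h1.comp (measurable_id.prodMk h2)

lemma measurable_tot {A : Set M} (hA : MeasurableSet A) : Measurable (tot A) := by
  unfold tot
  refine Measurable.tsum fun k => ?_
  exact (measurable_from_top (f := fun n : ℕ => (n : ℝ≥0∞))).comp
    ((measurable_num hA).comp (measurable_pi_apply k))

end enumeration

/-! ### The law of the counts -/

section law

open scoped Classical in
/-- For disjoint sets the exponential of a step function is a sum. -/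
lemma exp_step {X ι : Type} [Fintype ι] {A : ι → Set X}
    (hA : Pairwise (Function.onFun Disjoint A)) (s : ι → ℝ) (x : X) :
    Complex.exp ((step A s x : ℂ) * Complex.I) - 1 =
      ∑ i, (A i).indicator (fun _ => Complex.exp ((s i : ℂ) * Complex.I) - 1) x := by
  by_cases h : ∃ i, x ∈ A i
  · obtain ⟨i, hi⟩ := h
    have hj : ∀ j, j ≠ i → x ∉ A j := fun j hji hxj =>
      Set.disjoint_left.mp (hA hji) hxj hi
    have h1 : step A s x = s i := by
      unfold step
      rw [Finset.sum_eq_single i]
      · rw [indicator_of_mem hi, mul_one]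
      · intro j _ hji
        rw [indicator_of_notMem (hj j hji), mul_zero]
      · intro h2
        exact absurd (Finset.mem_univ _) h2
    rw [h1, Finset.sum_eq_single i]
    · rw [indicator_of_mem hi]
    · intro j _ hji
      rw [indicator_of_notMem (hj j hji)]
    · intro h2
      exact absurd (Finset.mem_univ _) h2
  · push Not at h
    have h1 : step A s x = 0 := by
      unfold step
      refine Finset.sum_eq_zero fun i _ => ?_
      rw [indicator_of_notMem (h i), mul_zero]
    rw [h1, Finset.sum_eq_zero fun i _ => ?_]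
    · simp
    · rw [indicator_of_notMem (h i)]

lemma integrable_exp_step {X ι : Type} [MeasurableSpace X] [Fintype ι] {μ : Measure X}
    {A : ι → Set X} (hA : ∀ i, MeasurableSet (A i)) (hAf : ∀ i, μ (A i) ≠ ∞)
    (hd : Pairwise (Function.onFun Disjoint A)) (s : ι → ℝ) :
    Integrable (fun x => Complex.exp ((step A s x : ℂ) * Complex.I) - 1) μ := by
  simp_rw [exp_step hd s]
  refine integrable_finsetSum _ fun i _ => ?_
  exact (integrable_indicator_iff (hA i)).mpr (integrableOn_const (hAf i))

lemma psi_eq {X ι : Type} [MeasurableSpace X] [Fintype ι] {μ : Measure X}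
    {A : ι → Set X} (hA : ∀ i, MeasurableSet (A i)) (hAf : ∀ i, μ (A i) ≠ ∞)
    (hd : Pairwise (Function.onFun Disjoint A)) (s : ι → ℝ) :
    psi μ (step A s) = ∑ i, ((μ (A i)).toReal : ℂ) *
      (Complex.exp ((s i : ℂ) * Complex.I) - 1) := by
  unfold psi
  simp_rw [exp_step hd s]
  rw [integral_finsetSum _ fun i _ =>
    (integrable_indicator_iff (hA i)).mpr (integrableOn_const (hAf i))]
  refine Finset.sum_congr rfl fun i _ => ?_
  rw [integral_indicator (hA i), setIntegral_const, Measure.real, Complex.real_smul]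

variable {d : ℕ}

/-- The uniform law on the unit cell `z`. -/
noncomputable def uni (d : ℕ) (z : Fin d → ℤ) : Measure (E d) :=
  volume.restrict {y | cell 1 y = z}

instance (z : Fin d → ℤ) : IsProbabilityMeasure (uni d z) := by
  refine ⟨?_⟩
  unfold uni
  rw [Measure.restrict_apply_univ, volume_cell one_pos z]
  simp

/-- The probability measure. -/
noncomputable def PP (e : ℕ ≃ (Fin d → ℤ)) (lam : ℝ≥0) : Measure (ℕ → ℕ × (ℕ → E d)) :=
  Measure.infinitePi (fun k => mixd (uni d (e k)) lam)

instance (e : ℕ ≃ (Fin d → ℤ)) (lam : ℝ≥0) : IsProbabilityMeasure (PP e lam) := by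
  unfold PP
  infer_instance

lemma iUnion_cells (e : ℕ ≃ (Fin d → ℤ)) : ⋃ k, {y : E d | cell 1 y = e k} = univ := by
  ext y
  simp only [mem_iUnion, mem_ofPred_eq, mem_univ, iff_true]
  exact ⟨e.symm (cell 1 y), by simp⟩

lemma disjoint_cells (e : ℕ ≃ (Fin d → ℤ)) :
    Pairwise (Function.onFun Disjoint (fun k => {y : E d | cell 1 y = e k})) := by
  intro k l hkl
  rw [Function.onFun, Set.disjoint_left]
  intro y hy hy'
  exact hkl (e.injective ((show cell 1 y = e k from hy).symm.trans hy'))

/-- The mean number of points in one block. -/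
lemma lintegral_num {X : Type} [MeasurableSpace X] (ν : Measure X) [IsProbabilityMeasure ν]
    (r : ℝ≥0) {A : Set X} (hA : MeasurableSet A) :
    ∫⁻ ω, (num ω A : ℝ≥0∞) ∂(mixd ν r) = r * ν A := by
  have hm : Measurable (fun ω : ℕ × (ℕ → X) => (num ω A : ℝ≥0∞)) :=
    (measurable_from_top (f := fun n : ℕ => (n : ℝ≥0∞))).comp (measurable_num hA)
  unfold Pool.Agent.Y316.PC.mixd
  rw [lintegral_prod _ hm.aemeasurable]
  have h1 : ∀ n : ℕ, ∫⁻ x : ℕ → X, (num (n, x) A : ℝ≥0∞) ∂(Measure.infinitePi (fun _ : ℕ => ν)) =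
      n * ν A := by
    intro n
    have h2 : ∀ x : ℕ → X, (num (n, x) A : ℝ≥0∞) = ∑ j ∈ Finset.range n,
        A.indicator (fun _ => (1 : ℝ≥0∞)) (x j) := by
      intro x
      unfold Pool.Agent.Y316.PC.num
      push_cast
      refine Finset.sum_congr rfl fun j _ => ?_
      by_cases h : x j ∈ A
      · rw [indicator_of_mem h, indicator_of_mem h]
        simp
      · rw [indicator_of_notMem h, indicator_of_notMem h]
        simp
    simp_rw [h2]
    have h3 : Measurable (A.indicator (fun _ => (1 : ℝ≥0∞))) := measurable_const.indicator hA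
    have h3j : ∀ j : ℕ, Measurable (fun x : ℕ → X => A.indicator (fun _ => (1 : ℝ≥0∞)) (x j)) :=
      fun j => h3.comp (measurable_pi_apply j)
    rw [lintegral_finsetSum _ fun j _ => h3j j]
    have h4 : ∀ j : ℕ, ∫⁻ x : ℕ → X, A.indicator (fun _ => (1 : ℝ≥0∞)) (x j)
        ∂(Measure.infinitePi (fun _ : ℕ => ν)) = ν A := by
      intro j
      have h5 := (measurePreserving_eval_infinitePi (fun _ : ℕ => ν) j).lintegral_comp h3
      simp only [Function.eval] at h5
      rw [h5, lintegral_indicator hA, lintegral_const, Measure.restrict_apply_univ, one_mul]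
    simp_rw [h4]
    rw [Finset.sum_const, Finset.card_range, nsmul_eq_mul]
  simp_rw [h1]
  rw [lintegral_mul_const _ (by fun_prop), lintegral_id_poisson]

/-- The mean number of points. -/
lemma lintegral_tot (e : ℕ ≃ (Fin d → ℤ)) (lam : ℝ≥0) {A : Set (E d)} (hA : MeasurableSet A) :
    ∫⁻ ω, tot A ω ∂(PP e lam) = lam * volume A := by
  have hm : Measurable (fun ω : ℕ × (ℕ → E d) => (num ω A : ℝ≥0∞)) :=
    (measurable_from_top (f := fun n : ℕ => (n : ℝ≥0∞))).comp (measurable_num hA)
  have hmk : ∀ k : ℕ, Measurable (fun ω : ℕ → ℕ × (ℕ → E d) => (num (ω k) A : ℝ≥0∞)) :=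
    fun k => hm.comp (measurable_pi_apply k)
  unfold tot
  rw [lintegral_tsum fun k => (hmk k).aemeasurable]
  have h1 : ∀ k, ∫⁻ ω, (num (ω k) A : ℝ≥0∞) ∂(PP e lam) = lam * uni d (e k) A := by
    intro k
    have h2 := (measurePreserving_eval_infinitePi (fun k => mixd (uni d (e k)) lam)
      k).lintegral_comp hm
    simp only [Function.eval] at h2
    unfold PP
    rw [h2, lintegral_num _ _ hA]
  simp_rw [h1]
  rw [ENNReal.tsum_mul_left]
  congr 1
  unfold uni
  have h3 : ∀ k, (volume.restrict {y : E d | cell 1 y = e k}) A =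
      volume (A ∩ {y : E d | cell 1 y = e k}) := fun k => Measure.restrict_apply hA
  simp_rw [h3]
  rw [← measure_iUnion, ← inter_iUnion, iUnion_cells, inter_univ]
  · intro k l hkl
    exact (disjoint_cells e hkl).mono inter_subset_right inter_subset_right
  · intro k
    exact hA.inter (measurableSet_cell 1 (e k))

lemma ae_tot_lt (e : ℕ ≃ (Fin d → ℤ)) (lam : ℝ≥0) {A : Set (E d)} (hA : MeasurableSet A)
    (hAf : volume A ≠ ∞) : ∀ᵐ ω ∂(PP e lam), tot A ω ≠ ∞ := by
  have h1 : ∫⁻ ω, tot A ω ∂(PP e lam) ≠ ∞ := by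
    rw [lintegral_tot e lam hA]
    exact ENNReal.mul_ne_top ENNReal.coe_ne_top hAf
  filter_upwards [ae_lt_top (measurable_tot hA) h1] with ω hω using hω.ne

/-- Fubini for a finite product of functions of different coordinates. -/
lemma integral_prod_infinitePi {ι : Type} {X : ι → Type} [∀ i, MeasurableSpace (X i)]
    (μ : ∀ i, Measure (X i)) [∀ i, IsProbabilityMeasure (μ i)] (s : Finset ι)
    (f : ∀ i, X i → ℂ) (hf : ∀ i, Measurable (f i)) :
    ∫ y, ∏ i ∈ s, f i (y i) ∂(Measure.infinitePi μ) = ∏ i ∈ s, ∫ x, f i x ∂(μ i) := by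
  have h := integral_restrict_infinitePi (μ := μ) (s := s)
    (f := fun y : (∀ i : s, X i) => ∏ i : s, f i (y i)) (by
      apply Measurable.aestronglyMeasurable
      exact Finset.measurable_prod _ (fun i _ => (hf i).comp (measurable_pi_apply i)))
  have h1 : ∀ y : (∀ i, X i), ∏ i ∈ s, f i (y i) = ∏ i : s, f i (s.restrict y i) := by
    intro y
    rw [← Finset.prod_coe_sort s (fun i => f i (y i))]
    rfl
  simp_rw [h1]
  rw [h]
  rw [integral_fintype_prod_eq_prod (f := fun (i : s) (x : X i) => f i x)]
  rw [Finset.prod_coe_sort s (fun i => ∫ x, f i x ∂(μ i))]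

/-- The characteristic functional. -/
lemma char_tot (e : ℕ ≃ (Fin d → ℤ)) (lam : ℝ≥0) {ι : Type} [Fintype ι] {A : ι → Set (E d)}
    (hA : ∀ i, MeasurableSet (A i)) (hAf : ∀ i, volume (A i) ≠ ∞)
    (hd : Pairwise (Function.onFun Disjoint A)) (s : ι → ℝ) :
    ∫ ω, Complex.exp (((∑ i, s i * (tot (A i) ω).toReal : ℝ) : ℂ) * Complex.I) ∂(PP e lam) =
      Complex.exp (lam * psi volume (step A s)) := by
  -- finite sums
  set G : ℕ → (ℕ → ℕ × (ℕ → E d)) → ℝ := fun K ω => ∑ k ∈ Finset.range K,
    ∑ i, s i * (num (ω k) (A i) : ℝ) with hG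
  have hgm : Measurable (fun ω : ℕ × (ℕ → E d) => ∑ i, s i * (num ω (A i) : ℝ)) := by
    refine Finset.measurable_fun_sum _ fun i _ => ?_
    refine Measurable.const_mul ?_ (s i)
    exact (measurable_from_top (f := fun n : ℕ => (n:ℝ))).comp (measurable_num (hA i))
  have hGm : ∀ K, Measurable (G K) := fun K =>
    Finset.measurable_fun_sum _ fun k _ => hgm.comp (measurable_pi_apply k)
  have h1 : ∀ K, ∫ ω, Complex.exp ((G K ω : ℂ) * Complex.I) ∂(PP e lam) =
      ∏ k ∈ Finset.range K, Complex.exp (lam * psi (uni d (e k)) (step A s)) := by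
    intro K
    have h2 : ∀ ω, Complex.exp ((G K ω : ℂ) * Complex.I) = ∏ k ∈ Finset.range K,
        Complex.exp (((∑ i, s i * (num (ω k) (A i) : ℝ) : ℝ) : ℂ) * Complex.I) := by
      intro ω
      rw [← Complex.exp_sum, ← Finset.sum_mul, hG]
      push_cast
      rfl
    simp_rw [h2]
    unfold PP
    rw [integral_prod_infinitePi (fun k => mixd (uni d (e k)) lam) (Finset.range K)
      (fun _ x => Complex.exp (((∑ i, s i * (num x (A i) : ℝ) : ℝ) : ℂ) * Complex.I))
      (fun _ => by fun_prop)]
    refine Finset.prod_congr rfl fun k _ => ?_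
    exact mixd_char (uni d (e k)) lam hA s
  -- almost sure convergence
  have h2 : ∀ᵐ ω ∂(PP e lam), ∀ i, tot (A i) ω ≠ ∞ := by
    rw [ae_all_iff]
    exact fun i => ae_tot_lt e lam (hA i) (hAf i)
  have h3 : ∀ᵐ ω ∂(PP e lam), Tendsto (fun K => Complex.exp ((G K ω : ℂ) * Complex.I)) atTop
      (𝓝 (Complex.exp (((∑ i, s i * (tot (A i) ω).toReal : ℝ) : ℂ) * Complex.I))) := by
    filter_upwards [h2] with ω hω
    have h4 : Tendsto (fun K => G K ω) atTop (𝓝 (∑ i, s i * (tot (A i) ω).toReal)) := by
      have h5 : ∀ K, G K ω = ∑ i, s i * ∑ k ∈ Finset.range K, ((num (ω k) (A i) : ℝ≥0∞)).toReal := by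
        intro K
        rw [hG]
        simp only [ENNReal.toReal_natCast, Finset.mul_sum]
        exact Finset.sum_comm
      simp_rw [h5]
      refine tendsto_finsetSum _ fun i _ => Tendsto.const_mul _ ?_
      have h6 := ENNReal.hasSum_toReal (hω i)
      have h7 : (tot (A i) ω).toReal = ∑' k, ((num (ω k) (A i) : ℝ≥0∞)).toReal :=
        ENNReal.tsum_toReal_eq fun k => ENNReal.natCast_ne_top _
      rw [h7]
      exact h6.tendsto_sum_nat
    refine (Complex.continuous_exp.tendsto _).comp ?_
    exact ((Complex.continuous_ofReal.tendsto _).comp h4).mul_const _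
  have h4 : Tendsto (fun K => ∫ ω, Complex.exp ((G K ω : ℂ) * Complex.I) ∂(PP e lam)) atTop
      (𝓝 (∫ ω, Complex.exp (((∑ i, s i * (tot (A i) ω).toReal : ℝ) : ℂ) * Complex.I)
        ∂(PP e lam))) := by
    refine tendsto_integral_of_dominated_convergence (fun _ => (1 : ℝ)) (fun K => ?_)
      (integrable_const _) (fun K => ?_) h3
    · have := hGm K
      exact (by fun_prop : Measurable (fun ω => Complex.exp ((G K ω : ℂ) *
        Complex.I))).aestronglyMeasurable
    · exact Eventually.of_forall fun ω => (norm_cexp_mul_I _).le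
  -- the limit of the products
  have h5 : HasSum (fun k => psi (uni d (e k)) (step A s)) (psi volume (step A s)) := by
    have h6 := hasSum_integral_iUnion (μ := (volume : Measure (E d)))
      (f := fun x => Complex.exp ((step A s x : ℂ) * Complex.I) - 1)
      (fun k => measurableSet_cell 1 (e k)) (disjoint_cells e)
      ((integrable_exp_step hA hAf hd s).integrableOn)
    rw [iUnion_cells, Measure.restrict_univ] at h6
    exact h6
  have h6 : Tendsto (fun K => ∏ k ∈ Finset.range K, Complex.exp (lam * psi (uni d (e k))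
      (step A s))) atTop (𝓝 (Complex.exp (lam * psi volume (step A s)))) := by
    have h7 : ∀ K, ∏ k ∈ Finset.range K, Complex.exp (lam * psi (uni d (e k)) (step A s)) =
        Complex.exp (lam * ∑ k ∈ Finset.range K, psi (uni d (e k)) (step A s)) := by
      intro K
      rw [← Complex.exp_sum, Finset.mul_sum]
    simp_rw [h7]
    refine (Complex.continuous_exp.tendsto _).comp ?_
    exact h5.tendsto_sum_nat.const_mul _
  simp_rw [h1] at h4
  exact tendsto_nhds_unique h4 h6

/-- The joint law of the counts of disjoint sets. -/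
lemma law_tot (e : ℕ ≃ (Fin d → ℤ)) (lam : ℝ≥0) {ι : Type} [Fintype ι] {A : ι → Set (E d)}
    (hA : ∀ i, MeasurableSet (A i)) (hAf : ∀ i, volume (A i) ≠ ∞)
    (hd : Pairwise (Function.onFun Disjoint A)) :
    (PP e lam).map (fun ω i => (tot (A i) ω).toReal) =
      Measure.pi (fun i => (poissonMeasure (lam * (volume (A i)).toNNReal)).map
        (Nat.cast : ℕ → ℝ)) := by
  have hm : Measurable (fun ω (i : ι) => (tot (A i) ω).toReal) :=
    measurable_pi_iff.mpr fun i => (measurable_tot (hA i)).ennreal_toReal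
  have : IsProbabilityMeasure ((PP e lam).map (fun ω (i : ι) => (tot (A i) ω).toReal)) :=
    Measure.isProbabilityMeasure_map hm.aemeasurable
  have : ∀ i, IsProbabilityMeasure ((poissonMeasure (lam * (volume (A i)).toNNReal)).map
      (Nat.cast : ℕ → ℝ)) := fun i =>
    Measure.isProbabilityMeasure_map (measurable_from_top).aemeasurable
  rw [← charFun_eq_pi_iff]
  intro t
  have h1 : ∀ i, charFun ((poissonMeasure (lam * (volume (A i)).toNNReal)).map
      (Nat.cast : ℕ → ℝ)) (t i) = Complex.exp ((lam * (volume (A i)).toNNReal : ℝ≥0) *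
        (Complex.exp ((t i : ℂ) * Complex.I) - 1)) := fun i => charFun_map_cast_poissonMeasure _ _
  simp_rw [h1]
  rw [← Complex.exp_sum, charFun_apply, Measure.map_map (WithLp.measurable_toLp 2 (ι → ℝ)) hm,
    integral_map ((WithLp.measurable_toLp 2 (ι → ℝ)).comp hm).aemeasurable (by fun_prop)]
  have h2 := char_tot e lam hA hAf hd t
  rw [psi_eq hA hAf hd, Finset.mul_sum] at h2
  have h3 : ∀ ω, ((inner ℝ ((WithLp.toLp 2 ∘ fun ω (i : ι) => (tot (A i) ω).toReal) ω :
      EuclideanSpace ℝ ι) t : ℝ) : ℂ) = ((∑ i, t i * (tot (A i) ω).toReal : ℝ) : ℂ) := by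
    intro ω
    rw [PiLp.inner_apply]
    rfl
  simp_rw [h3]
  rw [h2]
  congr 1
  refine Finset.sum_congr rfl fun i _ => ?_
  push_cast
  ring

/-- Infinitely many slots are in use. -/
lemma ae_infinite (e : ℕ ≃ (Fin d → ℤ)) {lam : ℝ≥0} (hlam : 0 < lam) :
    ∀ᵐ ω ∂(PP e lam), {n | used ω n}.Infinite := by
  have hone : ∀ k, mixd (uni d (e k)) lam {x | x.1 = 0} = ENNReal.ofReal (Real.exp (-lam)) := by
    intro k
    have h1 : {x : ℕ × (ℕ → E d) | x.1 = 0} = {0} ×ˢ univ := by
      ext x
      simp
    rw [h1]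
    unfold Pool.Agent.Y316.PC.mixd
    rw [Measure.prod_prod, measure_univ, mul_one, poissonMeasure_singleton]
    simp
  have hK : ∀ K, PP e lam {ω | ∀ k, K ≤ k → (ω k).1 = 0} = 0 := by
    intro K
    have h1 : ∀ m : ℕ, PP e lam {ω | ∀ k, K ≤ k → (ω k).1 = 0} ≤
        ENNReal.ofReal (Real.exp (-lam)) ^ m := by
      intro m
      have h2 : {ω : ℕ → ℕ × (ℕ → E d) | ∀ k, K ≤ k → (ω k).1 = 0} ⊆
          Set.pi (Finset.Ico K (K + m) : Set ℕ) (fun _ => {x | x.1 = 0}) := by
        intro ω hω k hk
        exact hω k (Finset.mem_Ico.mp hk).1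
      refine (measure_mono h2).trans ?_
      unfold PP
      have hms : MeasurableSet {x : ℕ × (ℕ → E d) | x.1 = 0} :=
        measurable_fst (measurableSet_singleton 0)
      rw [Measure.infinitePi_pi _ fun k _ => hms]
      simp_rw [hone]
      rw [Finset.prod_const, Nat.card_Ico, Nat.add_sub_cancel_left]
    have h3 : Tendsto (fun m : ℕ => ENNReal.ofReal (Real.exp (-lam)) ^ m) atTop (𝓝 0) := by
      refine ENNReal.tendsto_pow_atTop_nhds_zero_of_lt_one ?_
      rw [← ENNReal.ofReal_one]
      refine (ENNReal.ofReal_lt_ofReal_iff one_pos).mpr ?_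
      rw [Real.exp_lt_one_iff]
      simpa using hlam
    exact le_antisymm (ge_of_tendsto' h3 h1) zero_le
  have h4 : PP e lam (⋃ K : ℕ, {ω | ∀ k, K ≤ k → (ω k).1 = 0}) = 0 :=
    measure_iUnion_null hK
  rw [ae_iff]
  refine measure_mono_null ?_ h4
  intro ω hω
  simp only [mem_ofPred_eq, Set.not_infinite] at hω
  obtain ⟨B, hB⟩ := hω.bddAbove
  rw [mem_iUnion]
  refine ⟨B + 1, fun k hk => ?_⟩
  by_contra h5
  have h6 : used ω (Nat.pair k 0) := by
    unfold used
    rw [Nat.unpair_pair]
    exact Nat.pos_of_ne_zero h5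
  have h7 := hB h6
  have h8 := Nat.left_le_pair k 0
  omega

end law

/-- Poisson processes exist. -/
theorem exists_ppp : S_exists := by
  intro d hd lam hlam
  have : Nonempty (Fin d) := ⟨⟨0, hd⟩⟩
  obtain ⟨hden⟩ := nonempty_denumerable (Fin d → ℤ)
  set e : ℕ ≃ (Fin d → ℤ) := (Denumerable.eqv (Fin d → ℤ)).symm
  refine ⟨ℕ → ℕ × (ℕ → E d), inferInstance, PP e lam, inferInstance, enm, ?_⟩
  have hinf := ae_infinite e hlam
  have hcount : ∀ A : Set (E d), count enm A =ᵐ[PP e lam] tot A := by
    intro A
    filter_upwards [hinf] with ω hω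
    exact sum_enm hω A
  have hreal : ∀ A : Set (E d), MeasurableSet A → volume A ≠ ∞ →
      count enm A =ᵐ[PP e lam] fun ω => ENNReal.ofReal ((tot A ω).toReal) := by
    intro A hA hAf
    filter_upwards [hcount A, ae_tot_lt e lam hA hAf] with ω h1 h2
    rw [h1, ENNReal.ofReal_toReal h2]
  refine ⟨measurable_enm, ?_, ?_⟩
  · intro A hA hAf
    rw [Measure.map_congr (hreal A hA hAf)]
    have h1 := law_tot e lam (ι := Unit) (A := fun _ => A) (fun _ => hA) (fun _ => hAf)
      (fun i j h => absurd (Subsingleton.elim i j) h)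
    have h2 : (PP e lam).map (fun ω => (tot A ω).toReal) =
        (poissonMeasure (lam * (volume A).toNNReal)).map (Nat.cast : ℕ → ℝ) := by
      have hm : Measurable (fun ω (_ : Unit) => (tot A ω).toReal) :=
        measurable_pi_iff.mpr fun _ => (measurable_tot hA).ennreal_toReal
      have h3 : (fun ω => (tot A ω).toReal) = (fun f : Unit → ℝ => f ()) ∘
          (fun ω (_ : Unit) => (tot A ω).toReal) := rfl
      have hpr : IsProbabilityMeasure ((poissonMeasure (lam * (volume A).toNNReal)).map
        (Nat.cast : ℕ → ℝ)) := Measure.isProbabilityMeasure_map (measurable_from_top).aemeasurable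
      rw [h3, ← Measure.map_map (measurable_pi_apply ()) hm, h1]
      exact (measurePreserving_eval (fun _ : Unit => (poissonMeasure
        (lam * (volume A).toNNReal)).map (Nat.cast : ℕ → ℝ)) ()).map_eq
    have h4 : (fun ω => ENNReal.ofReal ((tot A ω).toReal)) = ENNReal.ofReal ∘
        (fun ω => (tot A ω).toReal) := rfl
    rw [h4, ← Measure.map_map ENNReal.measurable_ofReal (measurable_tot hA).ennreal_toReal, h2,
      Measure.map_map ENNReal.measurable_ofReal measurable_from_top]
    congr 1
    funext n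
    simp
  · intro ι _ A hA hAf hdis
    have := Fintype.ofFinite ι
    have h1 := law_tot e lam hA hAf hdis
    have hmi : ∀ i, Measurable (fun ω => (tot (A i) ω).toReal) := fun i =>
      (measurable_tot (hA i)).ennreal_toReal
    have hm : Measurable (fun ω (i : ι) => (tot (A i) ω).toReal) := measurable_pi_iff.mpr hmi
    have hpr : ∀ i, IsProbabilityMeasure ((poissonMeasure (lam * (volume (A i)).toNNReal)).map
      (Nat.cast : ℕ → ℝ)) := fun i =>
      Measure.isProbabilityMeasure_map (measurable_from_top).aemeasurable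
    have h2 : iIndepFun (fun i ω => (tot (A i) ω).toReal) (PP e lam) := by
      rw [iIndepFun_iff_map_fun_eq_pi_map fun i => (hmi i).aemeasurable, h1]
      congr 1
      funext i
      have h3 : (fun ω => (tot (A i) ω).toReal) = (fun f : ι → ℝ => f i) ∘
          (fun ω (i : ι) => (tot (A i) ω).toReal) := rfl
      rw [h3, ← Measure.map_map (measurable_pi_apply i) hm, h1]
      exact (measurePreserving_eval (fun i => (poissonMeasure
        (lam * (volume (A i)).toNNReal)).map (Nat.cast : ℕ → ℝ)) i).map_eq.symm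
    have h3 := h2.comp (fun _ => ENNReal.ofReal) (fun _ => ENNReal.measurable_ofReal)
    exact (iIndepFun_congr fun i => hreal (A i) (hA i) (hAf i)).mpr h3

end Pool.Agent.helper237_G5.pp56
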