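import Pool.Agent.helper237_G5.pp56.Ppp

/-!
# MP_f368f5_pr: void probabilities of the cells
-/

set_option autoImplicit false

namespace Pool.Agent.helper237_G5.pp56

open MeasureTheory ProbabilityTheory Set Filter Topology
open scoped ENNReal NNReal
open Pool.Agent.helper237_G5.pp712

lemma measurable_coord {d : ℕ} (j : Fin d) : Measurable (fun y : E d => y j) := by
  fun_prop

/-- The map to the index of the cell is measurable. -/
lemma measurable_cell {d : ℕ} (ε : ℝ) : Measurable (cell (d := d) ε) := by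
  refine measurable_pi_iff.mpr fun j => ?_
  exact Int.measurable_floor.comp ((measurable_coord j).div_const ε)

/-- A cell is a product of intervals. -/
lemma cell_preimage {d : ℕ} {ε : ℝ} (hε : 0 < ε) (z : Fin d → ℤ) :
    {y : E d | cell ε y = z} = (WithLp.ofLp : E d → (Fin d → ℝ)) ⁻¹'
      (Set.pi univ fun j => Ico (ε * (z j : ℝ)) (ε * (z j : ℝ) + ε)) := by
  ext y
  simp only [mem_ofPred_eq, mem_preimage, Set.mem_pi, mem_univ, forall_true_left, mem_Ico]
  constructor
  · intro h j
    have h1 : ⌊y j / ε⌋ = z j := congrFun h j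
    rw [Int.floor_eq_iff] at h1
    obtain ⟨h2, h3⟩ := h1
    rw [le_div_iff₀ hε] at h2
    rw [div_lt_iff₀ hε] at h3
    constructor
    · linarith
    · linarith
  · intro h
    funext j
    change ⌊y j / ε⌋ = z j
    rw [Int.floor_eq_iff, le_div_iff₀ hε, div_lt_iff₀ hε]
    obtain ⟨h1, h2⟩ := h j
    constructor <;> linarith

lemma measurableSet_cell {d : ℕ} (ε : ℝ) (z : Fin d → ℤ) :
    MeasurableSet {y : E d | cell ε y = z} :=
  measurable_cell ε (measurableSet_singleton z)

/-- The volume of a cell. -/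
lemma volume_cell {d : ℕ} {ε : ℝ} (hε : 0 < ε) (z : Fin d → ℤ) :
    volume {y : E d | cell ε y = z} = ENNReal.ofReal (ε ^ d) := by
  rw [cell_preimage hε z]
  rw [(PiLp.volume_preserving_ofLp (Fin d)).measure_preimage
    (MeasurableSet.univ_pi fun j => measurableSet_Ico).nullMeasurableSet]
  rw [Real.volume_pi_Ico]
  simp only [add_sub_cancel_left, Finset.prod_const, Finset.card_univ, Fintype.card_fin]
  rw [ENNReal.ofReal_pow hε.le]

/-- The volume of a finite union of cells. -/
lemma volume_cells {d : ℕ} {ε : ℝ} (hε : 0 < ε) (F : Finset (Fin d → ℤ)) :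
    volume {y : E d | cell ε y ∈ F} = ENNReal.ofReal (F.card * ε ^ d) := by
  have h1 : {y : E d | cell ε y ∈ F} = ⋃ z ∈ F, {y : E d | cell ε y = z} := by
    ext y; simp
  rw [h1, measure_biUnion_finset]
  · simp_rw [volume_cell hε]
    rw [Finset.sum_const, nsmul_eq_mul, ENNReal.ofReal_mul (by positivity),
      ENNReal.ofReal_natCast]
  · intro z _ z' _ hzz
    rw [Function.onFun, Set.disjoint_left]
    intro y hy hy'
    exact hzz ((show cell ε y = z from hy).symm.trans hy')
  · intro z _
    exact measurableSet_cell ε z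

/-- The infimum of the products of the indicators of the events that the points avoid a set. -/
lemma iInf_prod_indicator {ι : Type} (A : Set ι) (y : ℕ → ι) :
    ⨅ m : ℕ, ∏ i ∈ Finset.range m, (1 - A.indicator (fun _ => (1 : ℝ≥0∞)) (y i)) =
      {y : ℕ → ι | ∀ i, y i ∉ A}.indicator (fun _ => (1 : ℝ≥0∞)) y := by
  by_cases h : ∀ i, y i ∉ A
  · rw [indicator_of_mem (show y ∈ {y : ℕ → ι | ∀ i, y i ∉ A} from h)]
    have h1 : ∀ m : ℕ, ∏ i ∈ Finset.range m,
        (1 - A.indicator (fun _ => (1 : ℝ≥0∞)) (y i)) = 1 := by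
      intro m
      refine Finset.prod_eq_one fun i _ => ?_
      rw [indicator_of_notMem (h i), tsub_zero]
    simp_rw [h1]
    simp
  · rw [indicator_of_notMem (show y ∉ {y : ℕ → ι | ∀ i, y i ∉ A} from h)]
    push Not at h
    obtain ⟨i, hi⟩ := h
    refine le_antisymm ?_ zero_le
    refine (iInf_le _ (i + 1)).trans ?_
    rw [Finset.prod_eq_zero (Finset.mem_range.mpr (Nat.lt_succ_self i))]
    rw [indicator_of_mem hi]
    simp

/-- Void probabilities of the cells for a Poisson process. -/
theorem void : S_void := by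
  intro d Ω _ P _ lam x hx ε hε F
  set A : Set (E d) := {y : E d | cell ε y ∈ F} with hA
  have hAm : MeasurableSet A := measurable_cell ε (Finset.measurableSet F)
  have hvol : volume A = ENNReal.ofReal (F.card * ε ^ d) := volume_cells hε F
  have h1 := ppp d Ω P lam x hx (A.indicator (fun _ => (1 : ℝ≥0∞)))
    (measurable_const.indicator hAm) (fun z => by
      by_cases hz : z ∈ A
      · rw [indicator_of_mem hz]
      · rw [indicator_of_notMem hz]; exact zero_le) (by
      rw [lintegral_indicator hAm, lintegral_const, Measure.restrict_apply_univ, hvol, one_mul]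
      exact ENNReal.ofReal_ne_top)
  rw [lintegral_indicator hAm, lintegral_const, Measure.restrict_apply_univ, hvol, one_mul,
    ENNReal.toReal_ofReal (by positivity)] at h1
  have hSm : MeasurableSet {ω | ∀ z ∈ F, z ∉ occ ε (fun i => x i ω)} := by
    have h2 : {ω | ∀ z ∈ F, z ∉ occ ε (fun i => x i ω)} = ⋂ i, (x i ⁻¹' A)ᶜ := by
      ext ω
      simp only [mem_ofPred_eq, occ, mem_iInter, mem_compl_iff, mem_preimage, hA, not_exists]
      exact ⟨fun h i hi => h _ hi i rfl, fun h z hz i hi => h i (hi ▸ hz)⟩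
    rw [h2]
    exact MeasurableSet.iInter fun i => (hx.measurable i hAm).compl
  have h3 : ∀ ω, ⨅ m : ℕ, ∏ i ∈ Finset.range m,
      (1 - A.indicator (fun _ => (1 : ℝ≥0∞)) (x i ω)) =
      {ω | ∀ z ∈ F, z ∉ occ ε (fun i => x i ω)}.indicator (fun _ => (1 : ℝ≥0∞)) ω := by
    intro ω
    rw [iInf_prod_indicator A (fun i => x i ω)]
    by_cases h : ∀ z ∈ F, z ∉ occ ε (fun i => x i ω)
    · rw [indicator_of_mem, indicator_of_mem (show ω ∈ {ω | ∀ z ∈ F,
        z ∉ occ ε (fun i => x i ω)} from h)]
      intro i hi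
      exact h _ hi ⟨i, rfl⟩
    · rw [indicator_of_notMem, indicator_of_notMem (show ω ∉ {ω | ∀ z ∈ F,
        z ∉ occ ε (fun i => x i ω)} from h)]
      intro h4
      refine h fun z hz hzo => ?_
      obtain ⟨i, hi⟩ := hzo
      exact h4 i (show cell ε (x i ω) ∈ F from hi ▸ hz)
  simp_rw [h3] at h1
  rw [lintegral_indicator hSm, lintegral_const, Measure.restrict_apply_univ, one_mul] at h1
  rw [h1]
  congr 1
  rw [← Real.exp_nat_mul]
  congr 1
  ring

end Pool.Agent.helper237_G5.pp56
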